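import Pool.Agent.V11244.ZMad.ZMc

set_option autoImplicit false

/-!
# Analytic maximal almost disjoint families modulo the density zero ideal are countable
-/

namespace Pool.Agent.Results.MP_af84fe_lc.AnalyticCountable

open Set Filter Topology

/-- Membership in the density zero ideal: `|A ∩ {0, ..., n - 1}| / n` tends to `0`. -/
def DensityZero (A : Set ℕ) : Prop :=
  Tendsto (fun n : ℕ => ((A ∩ Set.Iio n).ncard : ℝ) / n) atTop (𝓝 0)

/-- `𝒜` is a maximal almost disjoint family modulo the density zero ideal. -/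
structure IsMAD (𝒜 : Set (Set ℕ)) : Prop where
  positive : ∀ A ∈ 𝒜, ¬ DensityZero A
  almostDisjoint : ∀ A ∈ 𝒜, ∀ B ∈ 𝒜, A ≠ B → DensityZero (A ∩ B)
  maximal : ∀ X : Set ℕ, ¬ DensityZero X → ∃ A ∈ 𝒜, ¬ DensityZero (X ∩ A)

/-- `𝒜` is analytic in the Cantor space of characteristic functions. -/
def IsAnalytic (𝒜 : Set (Set ℕ)) : Prop :=
  MeasureTheory.AnalyticSet {x : ℕ → Bool | {n | x n = true} ∈ 𝒜}

open Pool.Agent.V11244.ZM

theorem mu_ncard (n : ℕ) (A : Set ℕ) :
    mu n A = ((A ∩ Set.Ico (2 ^ n) (2 ^ (n + 1))).ncard : ℝ) / 2 ^ n := by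
  classical
  unfold mu
  congr 2
  rw [← Set.ncard_coe_finset]
  congr 1
  ext x
  simp only [Finset.coe_filter, Finset.mem_Ico, Set.mem_ofPred_eq, Set.mem_inter_iff, Set.mem_Ico]
  tauto

theorem fin_inter (A : Set ℕ) (n : ℕ) : (A ∩ Set.Iio n).Finite :=
  (Set.finite_Iio n).subset Set.inter_subset_right

theorem densityZero_iff (A : Set ℕ) : DensityZero A ↔ Z0 A := by
  constructor
  · intro h
    have h1 : Tendsto (fun n : ℕ => ((A ∩ Set.Iio (2 ^ (n + 1))).ncard : ℝ) /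
        ((2 ^ (n + 1) : ℕ) : ℝ)) atTop (𝓝 0) := by
      refine h.comp (tendsto_atTop_mono (fun n => ?_) tendsto_id)
      show n ≤ 2 ^ (n + 1)
      exact (Nat.lt_two_pow_self.le).trans (Nat.pow_le_pow_right (by norm_num) (by omega))
    have h2 := h1.const_mul 2
    rw [mul_zero] at h2
    refine squeeze_zero (fun n => mu_nonneg n A) (fun n => ?_) h2
    rw [mu_ncard]
    have h3 : ((A ∩ Set.Ico (2 ^ n) (2 ^ (n + 1))).ncard : ℝ) ≤
        ((A ∩ Set.Iio (2 ^ (n + 1))).ncard : ℝ) := by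
      have h4 : A ∩ Set.Ico (2 ^ n) (2 ^ (n + 1)) ⊆ A ∩ Set.Iio (2 ^ (n + 1)) :=
        fun x hx => ⟨hx.1, hx.2.2⟩
      exact_mod_cast Set.ncard_le_ncard h4 (fin_inter _ _)
    have h5 : (((2 ^ (n + 1) : ℕ)) : ℝ) = 2 * 2 ^ n := by push_cast; ring
    rw [h5]
    calc _ ≤ ((A ∩ Set.Iio (2 ^ (n + 1))).ncard : ℝ) / 2 ^ n := by gcongr
      _ = _ := by field_simp
  · intro h
    rw [Z0_iff] at h
    rw [DensityZero, Metric.tendsto_atTop]
    intro ε hε
    obtain ⟨N, hN⟩ := eventually_atTop.1 (h (ε / 4) (by positivity))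
    have hstep : ∀ K, N ≤ K → ((A ∩ Set.Iio (2 ^ K)).ncard : ℝ) ≤ 2 ^ N + ε / 4 * 2 ^ K := by
      intro K hK
      induction K, hK using Nat.le_induction with
      | base =>
        have h1 : (A ∩ Set.Iio (2 ^ N)).ncard ≤ 2 ^ N := by
          refine (Set.ncard_le_ncard Set.inter_subset_right (Set.finite_Iio _)).trans ?_
          rw [← Finset.coe_Iio, Set.ncard_coe_finset, Nat.card_Iio]
        have h2 : ((A ∩ Set.Iio (2 ^ N)).ncard : ℝ) ≤ 2 ^ N := by exact_mod_cast h1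
        have : 0 ≤ ε / 4 * 2 ^ N := by positivity
        linarith
      | succ K hK ih =>
        have h1 := (hN K hK).le
        rw [mu_ncard, div_le_iff₀ (by positivity)] at h1
        have h2 : (A ∩ Set.Iio (2 ^ (K + 1))).ncard ≤
            (A ∩ Set.Iio (2 ^ K)).ncard + (A ∩ Set.Ico (2 ^ K) (2 ^ (K + 1))).ncard := by
          refine (Set.ncard_le_ncard ?_ ?_).trans (Set.ncard_union_le _ _)
          · rintro x ⟨hx, hx2⟩
            rcases lt_or_ge x (2 ^ K) with h3 | h3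
            · exact Or.inl ⟨hx, h3⟩
            · exact Or.inr ⟨hx, h3, hx2⟩
          · exact (fin_inter _ _).union ((Set.finite_Ico _ _).subset Set.inter_subset_right)
        have h3 : ((A ∩ Set.Iio (2 ^ (K + 1))).ncard : ℝ) ≤
            (A ∩ Set.Iio (2 ^ K)).ncard + (A ∩ Set.Ico (2 ^ K) (2 ^ (K + 1))).ncard := by
          exact_mod_cast h2
        have h4 : (2 : ℝ) ^ (K + 1) = 2 * 2 ^ K := by ring
        rw [h4]
        linarith
    obtain ⟨M, hM⟩ := exists_nat_gt (2 ^ N / (ε / 4))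
    refine ⟨max (2 ^ N) (M + 1), fun m hm => ?_⟩
    have hm1 : 2 ^ N ≤ m := (le_max_left _ _).trans hm
    have hm2 : M + 1 ≤ m := (le_max_right _ _).trans hm
    have hm0 : m ≠ 0 := by omega
    have hmpos : (0 : ℝ) < m := by exact_mod_cast Nat.pos_of_ne_zero hm0
    rw [Real.dist_eq, sub_zero, abs_of_nonneg (by positivity), div_lt_iff₀ hmpos]
    set K := Nat.log 2 m with hK
    have h1 : 2 ^ K ≤ m := Nat.pow_log_le_self 2 hm0
    have h2 : m < 2 ^ (K + 1) := Nat.lt_pow_succ_log_self (by norm_num) m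
    have h3 : N ≤ K := by
      by_contra hcon
      have : 2 ^ (K + 1) ≤ 2 ^ N := Nat.pow_le_pow_right (by norm_num) (by omega)
      omega
    have h4 := hstep (K + 1) (by omega)
    have h5 : ((A ∩ Set.Iio m).ncard : ℝ) ≤ ((A ∩ Set.Iio (2 ^ (K + 1))).ncard : ℝ) := by
      have h9 : A ∩ Set.Iio m ⊆ A ∩ Set.Iio (2 ^ (K + 1)) := fun x hx => ⟨hx.1, lt_trans hx.2 h2⟩
      exact_mod_cast Set.ncard_le_ncard h9 (fin_inter _ _)
    have h6 : ((2 : ℝ)) ^ K ≤ m := by exact_mod_cast h1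
    have h7 : (2 : ℝ) ^ N < ε / 4 * m := by
      rw [div_lt_iff₀ (by positivity)] at hM
      have : (M : ℝ) ≤ m := by exact_mod_cast (by omega : M ≤ m)
      nlinarith
    have h8 : (2 : ℝ) ^ (K + 1) = 2 * 2 ^ K := by ring
    rw [h8] at h4
    nlinarith

/-- **Every analytic maximal almost disjoint family modulo the density zero ideal is countable.** -/
theorem result (𝒜 : Set (Set ℕ)) (hA : IsAnalytic 𝒜) (hmad : IsMAD 𝒜) : 𝒜.Countable := by
  refine main hA (fun A h => ?_) (fun A h B h' hne => ?_) fun X hX => ?_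
  · rw [← densityZero_iff]; exact hmad.positive A h
  · rw [← densityZero_iff]; exact hmad.almostDisjoint A h B h' hne
  · rw [← densityZero_iff] at hX
    obtain ⟨A, hA, h⟩ := hmad.maximal X hX
    exact ⟨A, hA, by rwa [← densityZero_iff]⟩

end Pool.Agent.Results.MP_af84fe_lc.AnalyticCountable
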